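import Pool.Agent.helper90.Tri.Main

/-!
The weighted trinomial sum with denominator `24 ^ k` modulo `p ^ 2`.
-/

namespace Pool.Agent.Results.MP_96ca4c_nt.TrinomialMod

open Finset

/-- For every prime `p ≡ 1 (mod 3)` and integers `x, y` with `4 p = x ^ 2 + 27 y ^ 2` and
`x ≡ 2 (mod 3)`, the sum `∑_{k < p} (k + 2) T_k / 24 ^ k`, with `T_k = (3k)! / (k!) ^ 3`, is
congruent to `x` modulo `p ^ 2` in the ring of rationals with denominator prime to `p`: the
difference is `p ^ 2` times a rational number whose denominator is not divisible by `p`. -/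
theorem result (p : ℕ) (hp : p.Prime) (hp3 : p ≡ 1 [MOD 3]) (x y : ℤ)
    (hxy : 4 * (p : ℤ) = x ^ 2 + 27 * y ^ 2) (hx : x ≡ 2 [ZMOD 3]) :
    ∃ r : ℚ, ¬ p ∣ r.den ∧
      (∑ k ∈ range p, ((k : ℚ) + 2) / 24 ^ k * (((3 * k).factorial : ℚ) / (k.factorial : ℚ) ^ 3))
        - (x : ℚ) = (p : ℚ) ^ 2 * r := by
  have : Fact p.Prime := ⟨hp⟩
  exact Pool.Agent.helper90.Tri.main hp3 hxy hx

end Pool.Agent.Results.MP_96ca4c_nt.TrinomialMod
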